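import Pool.Agent.Lib.MP_0a3467_an.Cv.Red2

namespace Pool.Agent.Results.MP_0a3467_an.Convergence

open MeasureTheory

/-- For every multiplicative measure-preserving action and all bounded functions the averages of
the correlations along `m, m + n, …, m + l n` converge. -/
theorem result {X : Type*} [MeasurableSpace X] (μ : Measure X) [IsProbabilityMeasure μ]
    (T : ℕ → X → X) (hT : ∀ n, 1 ≤ n → MeasurePreserving (T n) μ μ)
    (hmul : ∀ m n, 1 ≤ m → 1 ≤ n → T (m * n) =ᵐ[μ] T m ∘ T n) (l : ℕ) (F : Fin (l + 1) → X → ℂ)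
    (hF : ∀ j, MemLp (F j) ⊤ μ) :
    ∃ c : ℂ, Filter.Tendsto (fun N : ℕ => (∑ m ∈ Finset.Icc 1 N, ∑ n ∈ Finset.Icc 1 N,
      ∫ x, ∏ j : Fin (l + 1), F j (T (m + j * n) x) ∂μ) / (N : ℂ) ^ 2) Filter.atTop (nhds c) :=
  Pool.Agent.Lib.MP_0a3467_an.Cv.main μ T hT hmul l F hF

end Pool.Agent.Results.MP_0a3467_an.Convergence
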