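import Pool.Agent.Lib.MP_0a3467_an.Two
import Pool.Agent.Variants.MP_0a3467_an.NoRecurrence

namespace Pool.Agent.Results.MP_0a3467_an.RecurrenceThreshold

open MeasureTheory

/-- For `l ≥ 1` the following are equivalent: `l = 1`; the averages along `m, m + n, …, m + l n`
have positive lower limit for all `l + 1` multiplicative actions and all sets of positive measure;
some return set along this pattern has positive measure for all such actions and sets. -/
theorem result (l : ℕ) (hl : 1 ≤ l) : List.TFAE [l = 1,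
    ∀ (X : Type) [MeasurableSpace X] [StandardBorelSpace X] (μ : Measure X)
      [IsProbabilityMeasure μ] (T : Fin (l + 1) → ℕ → X ≃ᵐ X) (A : Set X),
      (∀ j n, 1 ≤ n → MeasurePreserving (T j n) μ μ) → (∀ j x, T j 1 x = x) →
      (∀ j m n x, 1 ≤ m → 1 ≤ n → T j (m * n) x = T j m (T j n x)) →
      MeasurableSet A → 0 < μ A →
      0 < Filter.liminf (fun N : ℕ => (∑ m ∈ Finset.Icc 1 N, ∑ n ∈ Finset.Icc 1 N,
        μ.real (⋂ j : Fin (l + 1), T j (m + j * n) ⁻¹' A)) / (N : ℝ) ^ 2) Filter.atTop,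
    ∀ (X : Type) [MeasurableSpace X] [StandardBorelSpace X] (μ : Measure X)
      [IsProbabilityMeasure μ] (T : Fin (l + 1) → ℕ → X ≃ᵐ X) (A : Set X),
      (∀ j n, 1 ≤ n → MeasurePreserving (T j n) μ μ) → (∀ j x, T j 1 x = x) →
      (∀ j m n x, 1 ≤ m → 1 ≤ n → T j (m * n) x = T j m (T j n x)) →
      MeasurableSet A → 0 < μ A →
      ∃ m n : ℕ, 1 ≤ m ∧ 1 ≤ n ∧ 0 < μ (⋂ j : Fin (l + 1), T j (m + j * n) ⁻¹' A)] := by
  tfae_have 1 → 2 := by
    rintro rfl X _ _ μ _ T A hT _ hm hA h0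
    obtain ⟨d, hd, h⟩ := Pool.Agent.Lib.MP_0a3467_an.Two.lower μ (fun n => T 0 n) (fun n => T 1 n)
      (hT 0) (fun m n h1 h2 => Filter.Eventually.of_forall fun x => hm 0 m n x h1 h2)
      (hT 1) (fun m n h1 h2 => Filter.Eventually.of_forall fun x => hm 1 m n x h1 h2) hA h0
    refine hd.trans_le (Filter.le_liminf_of_le (Filter.isCoboundedUnder_ge_of_le _ (x := 1)
      fun N => ?_) ?_)
    · refine div_le_one_of_le₀ ?_ (by positivity)
      refine (Finset.sum_le_card_nsmul _ _ (N : ℝ) fun m _ => ?_).trans (by simp [sq])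
      exact (Finset.sum_le_card_nsmul _ _ (1 : ℝ) fun n _ => measureReal_le_one).trans (by simp)
    · filter_upwards [h] with N hN
      refine hN.trans (le_of_eq ?_)
      congr 1
      refine Finset.sum_congr rfl fun m _ => Finset.sum_congr rfl fun n _ => ?_
      congr 1
      ext x
      simp [Fin.forall_fin_two]
  tfae_have 2 → 3 := by
    intro h X _ _ μ _ T A hT h1 hm hA h0
    have h2 := h X μ T A hT h1 hm hA h0
    by_contra hcon
    push Not at hcon
    have h3 : (fun N : ℕ => (∑ m ∈ Finset.Icc 1 N, ∑ n ∈ Finset.Icc 1 N,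
        μ.real (⋂ j : Fin (l + 1), T j (m + j * n) ⁻¹' A)) / (N : ℝ) ^ 2) = fun _ => 0 := by
      funext N
      rw [Finset.sum_eq_zero fun m hm' => Finset.sum_eq_zero fun n hn => ?_, zero_div]
      have := hcon m n (Finset.mem_Icc.1 hm').1 (Finset.mem_Icc.1 hn).1
      rw [Measure.real, nonpos_iff_eq_zero.1 this, ENNReal.toReal_zero]
    rw [h3, Filter.liminf_const] at h2
    exact lt_irrefl _ h2
  tfae_have 3 → 1 := by
    intro h
    by_contra hne
    obtain ⟨X, _, _, μ, _, T, A, hT, h1, hm, hA, h0, hz⟩ :=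
      Pool.Agent.Variants.MP_0a3467_an.NoRecurrence.result l (by omega)
    obtain ⟨m, n, hm1, hn1, hpos⟩ := h X μ T A hT h1 hm hA h0
    exact hpos.ne' (hz m n hm1 hn1)
  tfae_finish

/-- The posed question: the positivity fails for some `l`, some actions and some set. -/
theorem posed : ¬ ∀ l : ℕ, 1 ≤ l →
    ∀ (X : Type) [MeasurableSpace X] [StandardBorelSpace X] (μ : Measure X)
      [IsProbabilityMeasure μ] (T : Fin (l + 1) → ℕ → X ≃ᵐ X) (A : Set X),
      (∀ j n, 1 ≤ n → MeasurePreserving (T j n) μ μ) → (∀ j x, T j 1 x = x) →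
      (∀ j m n x, 1 ≤ m → 1 ≤ n → T j (m * n) x = T j m (T j n x)) →
      MeasurableSet A → 0 < μ A →
      0 < Filter.liminf (fun N : ℕ => (∑ m ∈ Finset.Icc 1 N, ∑ n ∈ Finset.Icc 1 N,
        μ.real (⋂ j : Fin (l + 1), T j (m + j * n) ⁻¹' A)) / (N : ℝ) ^ 2) Filter.atTop := by
  intro h
  have := ((result 2 (by norm_num)).out 1 0).1 (h 2 (by norm_num))
  omega

end Pool.Agent.Results.MP_0a3467_an.RecurrenceThreshold
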